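import Pool.Agent.Helper31.ST.Low
import Pool.Agent.Helper9.ST.B7

/-!
Sparse polynomial calculus for trinomials over finite fields: assembly.
-/

set_option autoImplicit false

namespace STri

open Polynomial

/-- The size of the shortest relation between the exponents: the least `n` such that there are
integers `i, j`, not both zero, with `i α + j β = 0` modulo `N` and `|i|, |j|, |i + j| ≤ n`. -/
noncomputable def lam (N : ℕ) (α β : ZMod N) : ℕ := sInf {n : ℕ | Rel N α β n}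

theorem rel_lam (N : ℕ) [NeZero N] (α β : ZMod N) : Rel N α β (lam N α β) :=
  Nat.sInf_mem (s := {n : ℕ | Rel N α β n}) ⟨_, rel_sqrt N α β⟩

theorem lam_le (N : ℕ) [NeZero N] (α β : ZMod N) : lam N α β ≤ 2 * Nat.sqrt N :=
  Nat.sInf_le (rel_sqrt N α β)

theorem not_rel_of_lt {N : ℕ} {α β : ZMod N} {n : ℕ} (h : n < lam N α β) : ¬ Rel N α β n :=
  fun h1 => absurd (Nat.sInf_le h1) (not_le.2 h)

theorem le_lam_of_not_rel {N : ℕ} [NeZero N] {α β : ZMod N} {n : ℕ} (h : ¬ Rel N α β n) :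
    n + 1 ≤ lam N α β := by
  by_contra hc
  exact h ((rel_lam N α β).mono (by omega))

theorem charOK_of_lt {K : Type*} [Field K] (p : ℕ) [CharP K p] {n : ℕ} (h : n < p) :
    CharOK K n := by
  intro k hk1 hkn h0
  have h1 := (CharP.cast_eq_zero_iff K p k).1 h0
  exact absurd (Nat.le_of_dvd (by omega) h1) (by omega)

private lemma fin_pow_mod {F : Type*} [Monoid F] {N : ℕ} (x : F) (hx : x ^ N = 1) (k : ℕ) :
    x ^ (k % N) = x ^ k := by
  conv_rhs => rw [← Nat.mod_add_div k N, pow_add, pow_mul, hx, one_pow, mul_one]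

/-- The lower bound for finite fields. -/
theorem fin_lower {K : Type*} [Field K] (p : ℕ) [Fact p.Prime] [CharP K p] {N : ℕ} [NeZero N]
    {α β : ZMod N} {c₁ c₂ c₃ : K} (h1 : c₁ ≠ 0) (h2 : c₂ ≠ 0) (h3 : c₃ ≠ 0)
    (hlam : 2 ≤ lam N α β) {r s : ℕ} (hrs : r * ((s - 1) * (s - 2)) < min (lam N α β) p)
    {l : List (Rg K N)} (hl : IsProof r s (tri N α β c₁ c₂ c₃) l) :
    ∀ P ∈ l, P ≠ 0 → 3 ≤ nterms P := by
  have hp : 2 ≤ p := (Fact.out : p.Prime).two_le
  obtain ⟨n, hn⟩ : ∃ n, n = max 1 (r * ((s - 1) * (s - 2))) := ⟨_, rfl⟩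
  rw [lt_min_iff] at hrs
  have hn1 : n < lam N α β := by
    rw [hn]
    exact max_lt (by omega) hrs.1
  have hn2 : n < p := by
    rw [hn]
    exact max_lt (by omega) hrs.2
  exact lower h1 h2 h3 (hn ▸ le_max_left _ _) (charOK_of_lt p hn2) (not_rel_of_lt hn1)
    (hn ▸ le_max_right _ _) hl

/-- The upper bound for finite fields. -/
theorem fin_upper {K : Type*} [Field K] [Fintype K] (α β : ℕ) {c₁ c₂ c₃ : K} (h1 : c₁ ≠ 0)
    (h2 : c₂ ≠ 0) (h3 : c₃ ≠ 0) [NeZero (Fintype.card K - 1)]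
    (hroot : ∀ x : K, x ≠ 0 → c₁ * x ^ α + c₂ * x ^ β + c₃ ≠ 0) :
    ∃ l : List (Rg K (Fintype.card K - 1)),
      IsProof 2 (2 * lam (Fintype.card K - 1) α β + 3)
        (tri (Fintype.card K - 1) α β c₁ c₂ c₃) l ∧ (1 : Rg K (Fintype.card K - 1)) ∈ l ∧
      l.length ≤ 100 * (lam (Fintype.card K - 1) α β + 1) *
        (lam (Fintype.card K - 1) α β + Nat.log 2 (Fintype.card K - 1) + 1) := by
  refine upper h1 h2 h3 (rel_lam _ _ _) fun x hx => ?_
  obtain ⟨y, hy, rfl⟩ := roots_closure x hx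
  rw [ZMod.val_natCast, ZMod.val_natCast, fin_pow_mod _ hx, fin_pow_mod _ hx, ← map_pow,
    ← map_pow, ← map_mul, ← map_mul, ← map_add, ← map_add, ne_eq, map_eq_zero_iff _
    (algebraMap K (AlgebraicClosure K)).injective]
  exact hroot y hy

/-- A root excludes refutations. -/
theorem fin_sound {K : Type*} [Field K] [Fintype K] (α β : ℕ) {c₁ c₂ c₃ : K}
    [NeZero (Fintype.card K - 1)] {x : K} (hx : x ≠ 0)
    (hroot : c₁ * x ^ α + c₂ * x ^ β + c₃ = 0) {r s : ℕ}
    {l : List (Rg K (Fintype.card K - 1))}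
    (hl : IsProof r s (tri (Fintype.card K - 1) α β c₁ c₂ c₃) l) :
    (1 : Rg K (Fintype.card K - 1)) ∉ l := by
  have hx1 : x ^ (Fintype.card K - 1) = 1 := FiniteField.pow_card_sub_one_eq_one x hx
  refine sound hl x hx1 ?_
  unfold tri
  rw [AddMonoidAlgebra.coeff_add, AddMonoidAlgebra.coeff_add, AddMonoidAlgebra.coeff_single,
    AddMonoidAlgebra.coeff_single, AddMonoidAlgebra.coeff_single,
    Finsupp.sum_add_index' (fun _ => zero_mul _) (fun _ _ _ => add_mul _ _ _),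
    Finsupp.sum_add_index' (fun _ => zero_mul _) (fun _ _ _ => add_mul _ _ _),
    Finsupp.sum_single_index (zero_mul _), Finsupp.sum_single_index (zero_mul _),
    Finsupp.sum_single_index (zero_mul _), ZMod.val_natCast, ZMod.val_natCast,
    fin_pow_mod _ hx1, fin_pow_mod _ hx1, ZMod.val_zero, pow_zero, mul_one]
  exact hroot

end STri
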