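import Pool.Agent.Helper9.ST.GS
import Pool.Agent.Helper9.ST.MG
import Pool.Agent.Helper9.ST.D1

/-!
The lower bound: in a derivation with at most `r` summands per step and at most `s` terms per line
every nonzero line has at least three terms, if the lattice of relations has no vector of size
`≤ n` and `r (s - 1) (s - 2) ≤ n`.
-/

set_option autoImplicit false

namespace STri

open Polynomial

variable {K : Type*} [Field K] {N : ℕ}

/-! ### The projection is injective on small triangles -/

theorem low_inj {α β : ZMod N} {n : ℕ} (hrel : ¬ Rel N α β n) {D : ℕ} (hD : D ≤ n)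
    {S : Finset (ℤ × ℤ)} (hS : InTri D S) {z w : ℤ × ℤ} (hz : z ∈ S) (hw : w ∈ S)
    (h : pr α β z = pr α β w) : z = w := by
  obtain ⟨i₀, j₀, hS⟩ := hS
  by_contra hne
  apply hrel
  have h1 := hS z hz
  have h2 := hS w hw
  have hDn : (D : ℤ) ≤ n := by exact_mod_cast hD
  refine ⟨z.1 - w.1, z.2 - w.2, ?_, ?_, ?_, ?_, ?_⟩
  · by_contra hc
    push Not at hc
    exact hne (Prod.ext (by omega) (by omega))
  · rw [abs_le]
    constructor <;> omega
  · rw [abs_le]
    constructor <;> omega
  · rw [abs_le]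
    constructor <;> omega
  · unfold pr at h
    push_cast
    linear_combination h

/-! ### Supports of images -/

theorem low_img_support (α β : ZMod N) (p : Pc K N) :
    (img α β p).coeff.support ⊆ ims α β p := by
  classical
  intro a ha
  unfold img at ha
  rw [Finsupp.sum, AddMonoidAlgebra.coeff_sum, Finsupp.mem_support_iff, Finsupp.finsetSum_apply] at ha
  obtain ⟨z, hz, hz'⟩ := Finset.exists_ne_zero_of_sum_ne_zero ha
  unfold ims
  rw [Finset.mem_image]
  refine ⟨z, hz, ?_⟩
  by_contra hne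
  apply hz'
  rw [AddMonoidAlgebra.coeff_single]
  exact Finsupp.single_eq_of_ne (Ne.symm hne)

theorem low_img_card {α β : ZMod N} {n : ℕ} (hrel : ¬ Rel N α β n) (p : Pc K N) (hD : p.D ≤ n)
    (hS : InTri p.D p.H.support) : p.H.support.card ≤ nterms (img α β p) := by
  classical
  have hinj : ∀ z ∈ p.H.support, ∀ w ∈ p.H.support, p.g + pr α β z = p.g + pr α β w → z = w :=
    fun z hz w hw h => low_inj hrel hD hS hz hw (add_left_cancel h)
  have h1 : ims α β p ⊆ (img α β p).coeff.support := by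
    intro a ha
    unfold ims at ha
    obtain ⟨z, hz, rfl⟩ := Finset.mem_image.1 ha
    rw [Finsupp.mem_support_iff]
    unfold img
    rw [Finsupp.sum, AddMonoidAlgebra.coeff_sum, Finsupp.finsetSum_apply,
      Finset.sum_eq_single_of_mem z hz]
    · rw [AddMonoidAlgebra.coeff_single, Finsupp.single_eq_same]
      exact Finsupp.mem_support_iff.1 hz
    · intro w hw hwz
      rw [AddMonoidAlgebra.coeff_single]
      exact Finsupp.single_eq_of_ne fun h => hwz (hinj z hz w hw h).symm
  have h2 : (ims α β p).card = p.H.support.card := by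
    unfold ims
    exact Finset.card_image_of_injOn fun z hz w hw h => hinj z hz w hw h
  unfold nterms
  rw [← h2]
  exact Finset.card_le_card h1

theorem low_sum_support (α β : ZMod N) (L : List (Pc K N)) (a : ZMod N)
    (ha : a ∈ (L.map (img α β)).sum.coeff.support) : ∃ p ∈ L, a ∈ ims α β p := by
  classical
  induction L with
  | nil =>
    rw [List.map_nil, List.sum_nil, AddMonoidAlgebra.coeff_zero, Finsupp.support_zero] at ha
    exact absurd ha (Finset.notMem_empty a)
  | cons p L ih =>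
    rw [List.map_cons, List.sum_cons, AddMonoidAlgebra.coeff_add] at ha
    rcases Finset.mem_union.1 (Finsupp.support_add ha) with h | h
    · exact ⟨p, List.mem_cons_self, low_img_support α β p h⟩
    · obtain ⟨q, hq, hq'⟩ := ih h
      exact ⟨q, List.mem_cons_of_mem _ hq, hq'⟩

theorem low_sum_card {α β : ZMod N} {n : ℕ} (hrel : ¬ Rel N α β n) (L : List (Pc K N))
    (hL : ∀ p ∈ L, p.D ≤ n ∧ InTri p.D p.H.support)
    (hpw : L.Pairwise fun p q => Disjoint (ims α β p) (ims α β q)) :
    (L.map fun p => p.H.support.card).sum ≤ nterms (L.map (img α β)).sum := by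
  classical
  induction L with
  | nil => simp
  | cons p L ih =>
    rw [List.pairwise_cons] at hpw
    have h1 := ih (fun q hq => hL q (List.mem_cons_of_mem _ hq)) hpw.2
    have h2 := low_img_card hrel p (hL p List.mem_cons_self).1 (hL p List.mem_cons_self).2
    have hdis : Disjoint (img α β p).coeff.support (L.map (img α β)).sum.coeff.support := by
      rw [Finset.disjoint_left]
      intro a ha hb
      obtain ⟨q, hq, hq'⟩ := low_sum_support α β L a hb
      exact Finset.disjoint_left.1 (hpw.1 q hq) (low_img_support α β p ha) hq'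
    rw [List.map_cons, List.sum_cons, List.map_cons, List.sum_cons]
    have h3 : nterms (img α β p + (L.map (img α β)).sum) =
        nterms (img α β p) + nterms (L.map (img α β)).sum := by
      unfold nterms
      rw [AddMonoidAlgebra.coeff_add, Finsupp.support_add_eq hdis,
        Finset.card_union_of_disjoint hdis]
    omega

/-! ### Good decompositions -/

/-- The line is a sum of images of vanishing pieces, each of quadratic size. -/
def LowGood (α β : ZMod N) (κ c : K) (P : Rg K N) : Prop :=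
  ∃ L : List (Pc K N),
    (∀ p ∈ L, p.H ≠ 0 ∧ ev κ c p.H = 0 ∧ InTri p.D p.H.support ∧
      p.D = (p.H.support.card - 1) * (p.H.support.card - 2)) ∧
    (L.map (img α β)).sum = P ∧ (L.map fun p => p.H.support.card).sum ≤ nterms P

theorem low_term_ne (κ c h : K) (hκ : κ ≠ 0) (hh : h ≠ 0) (z : ℤ × ℤ) :
    RatFunc.C h * (RatFunc.C κ * (RatFunc.X + RatFunc.C c)) ^ z.1 *
      (RatFunc.X : RatFunc K) ^ z.2 ≠ 0 := by
  have h1 : (RatFunc.X + RatFunc.C c : RatFunc K) = algebraMap K[X] (RatFunc K) (X + C c) := by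
    rw [map_add, RatFunc.algebraMap_X, RatFunc.algebraMap_C]
  have h2 : (RatFunc.C κ * (RatFunc.X + RatFunc.C c) : RatFunc K) ≠ 0 := by
    refine mul_ne_zero ((_root_.map_ne_zero RatFunc.C).2 hκ) ?_
    rw [h1]
    exact (RatFunc.algebraMap_ne_zero (X_add_C_ne_zero c))
  exact mul_ne_zero (mul_ne_zero ((_root_.map_ne_zero RatFunc.C).2 hh) (zpow_ne_zero _ h2))
    (zpow_ne_zero _ RatFunc.X_ne_zero)

theorem low_three (κ c : K) (hκ : κ ≠ 0) (H : ℤ × ℤ →₀ K) (hH : H ≠ 0) (h0 : ev κ c H = 0)
    (ht : InTri ((H.support.card - 1) * (H.support.card - 2)) H.support) :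
    3 ≤ H.support.card := by
  classical
  by_contra hc
  have hne : H.support.Nonempty := Finsupp.support_nonempty_iff.2 hH
  obtain ⟨z, hz⟩ := hne
  have hz0 : (H.support.card - 1) * (H.support.card - 2) = 0 := by
    have : H.support.card - 2 = 0 := by omega
    rw [this, mul_zero]
  rw [hz0] at ht
  obtain ⟨i₀, j₀, ht⟩ := ht
  have hall : H.support = {z} := by
    rw [Finset.eq_singleton_iff_unique_mem]
    refine ⟨hz, fun w hw => ?_⟩
    have h1 := ht z hz
    have h2 := ht w hw
    apply Prod.ext <;> push_cast at * <;> omega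
  unfold ev at h0
  rw [Finsupp.sum, hall, Finset.sum_singleton] at h0
  exact low_term_ne κ c (H z) hκ (Finsupp.mem_support_iff.1 hz) z h0

theorem low_quad (a b : ℕ) (ha : 3 ≤ a) : (a - 1) * (a - 2) + (b - 1) * (b - 2) ≤
    (a + b - 1) * (a + b - 2) := by
  obtain ⟨a, rfl⟩ : ∃ a', a = a' + 3 := ⟨a - 3, by omega⟩
  rcases Nat.lt_or_ge b 2 with hb | hb
  · have : b - 2 = 0 := by omega
    rw [this, mul_zero, add_zero]
    exact Nat.mul_le_mul (by omega) (by omega)
  · obtain ⟨b, rfl⟩ : ∃ b', b = b' + 2 := ⟨b - 2, by omega⟩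
    have e1 : a + 3 - 1 = a + 2 := by omega
    have e2 : a + 3 - 2 = a + 1 := by omega
    have e3 : b + 2 - 1 = b + 1 := by omega
    have e4 : b + 2 - 2 = b := by omega
    have e5 : a + 3 + (b + 2) - 1 = a + b + 4 := by omega
    have e6 : a + 3 + (b + 2) - 2 = a + b + 3 := by omega
    rw [e1, e2, e3, e4, e5, e6]
    nlinarith [Nat.zero_le (a * b)]

theorem low_size (κ c : K) (hκ : κ ≠ 0) (L : List (Pc K N))
    (hL : ∀ p ∈ L, p.H ≠ 0 ∧ ev κ c p.H = 0 ∧ InTri p.D p.H.support ∧
      p.D = (p.H.support.card - 1) * (p.H.support.card - 2)) (s : ℕ)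
    (hs : (L.map fun p => p.H.support.card).sum ≤ s) :
    (L.map Pc.D).sum ≤ (s - 1) * (s - 2) := by
  have key : (L.map Pc.D).sum ≤ ((L.map fun p => p.H.support.card).sum - 1) *
      ((L.map fun p => p.H.support.card).sum - 2) := by
    clear hs
    induction L with
    | nil => simp
    | cons p L ih =>
      obtain ⟨h1, h2, h3, h4⟩ := hL p List.mem_cons_self
      have h5 := low_three κ c hκ p.H h1 h2 (h4 ▸ h3)
      have h6 := ih fun q hq => hL q (List.mem_cons_of_mem _ hq)
      rw [List.map_cons, List.sum_cons, List.map_cons, List.sum_cons, h4]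
      have h7 := low_quad p.H.support.card (L.map fun p => p.H.support.card).sum h5
      omega
  exact key.trans (Nat.mul_le_mul (by omega) (by omega))

/-! ### Algebra of images -/

theorem low_img_add (α β g : ZMod N) (H H' : ℤ × ℤ →₀ K) (D D₁ D₂ : ℕ) :
    img α β ⟨g, H + H', D⟩ = img α β ⟨g, H, D₁⟩ + img α β ⟨g, H', D₂⟩ := by
  unfold img
  refine Finsupp.sum_add_index' (fun z => ?_) (fun z a b => ?_)
  · exact AddMonoidAlgebra.single_zero _
  · exact AddMonoidAlgebra.single_add _ _ _

theorem low_img_sum (α β g : ZMod N) (L : List (ℤ × ℤ →₀ K)) (D : ℕ)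
    (D' : (ℤ × ℤ →₀ K) → ℕ) :
    (L.map fun G => img α β ⟨g, G, D' G⟩).sum = img α β ⟨g, L.sum, D⟩ := by
  induction L generalizing D with
  | nil =>
    rw [List.map_nil, List.sum_nil, List.sum_nil]
    unfold img
    rw [Finsupp.sum_zero_index]
  | cons G L ih =>
    rw [List.map_cons, List.sum_cons, List.sum_cons, ih D, low_img_add α β g G L.sum D (D' G) D]

theorem low_img_smul (α β : ZMod N) (m : ZMod N) (a : K) (p : Pc K N) :
    AddMonoidAlgebra.single m a * img α β p = img α β ⟨m + p.g, a • p.H, p.D⟩ := by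
  unfold img
  rw [Finsupp.sum_smul_index (fun z => AddMonoidAlgebra.single_zero _), Finsupp.mul_sum]
  refine Finsupp.sum_congr fun z _ => ?_
  rw [AddMonoidAlgebra.single_mul_single, add_assoc]

theorem low_ev_smul (κ c a : K) (H : ℤ × ℤ →₀ K) : ev κ c (a • H) = RatFunc.C a * ev κ c H := by
  unfold ev
  rw [Finsupp.sum_smul_index (fun z => by rw [map_zero, zero_mul, zero_mul]), Finsupp.mul_sum]
  refine Finsupp.sum_congr fun z _ => ?_
  rw [map_mul]
  ring

theorem InTri.mono {D D' : ℕ} {S S' : Finset (ℤ × ℤ)} (h : InTri D S) (hD : D ≤ D')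
    (hS : S' ⊆ S) : InTri D' S' := by
  obtain ⟨i₀, j₀, h⟩ := h
  refine ⟨i₀, j₀, fun z hz => ?_⟩
  obtain ⟨h1, h2, h3⟩ := h z (hS hz)
  have : (D : ℤ) ≤ D' := by exact_mod_cast hD
  exact ⟨h1, h2, by omega⟩

theorem low_card_sum (L : List (ℤ × ℤ →₀ K)) (S : Finset (ℤ × ℤ))
    (hS : ∀ G ∈ L, G.support ⊆ S)
    (hL : L.Pairwise fun G G' => Disjoint G.support G'.support) :
    (L.map fun G => G.support.card).sum ≤ S.card := by
  classical
  induction L generalizing S with
  | nil => simp
  | cons G L ih =>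
    rw [List.pairwise_cons] at hL
    have h1 := ih (S \ G.support) (fun G' hG' => ?_) hL.2
    · rw [List.map_cons, List.sum_cons]
      have h2 := Finset.card_sdiff_add_card_eq_card (hS G List.mem_cons_self)
      omega
    · rw [Finset.subset_sdiff]
      exact ⟨hS G' (List.mem_cons_of_mem _ hG'), (hL.1 G' hG').symm⟩

/-! ### Splitting -/

theorem low_split (α β : ZMod N) (κ c : K) (hκ : κ ≠ 0) (hc : c ≠ 0) (n : ℕ) (hn : CharOK K n)
    (L : List (Pc K N)) (hL : ∀ p ∈ L, ev κ c p.H = 0 ∧ InTri n p.H.support) :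
    ∃ L' : List (Pc K N), (∀ p ∈ L', p.H ≠ 0 ∧ ev κ c p.H = 0 ∧ InTri p.D p.H.support ∧
      p.D = (p.H.support.card - 1) * (p.H.support.card - 2)) ∧
      (L'.map (img α β)).sum = (L.map (img α β)).sum ∧
      (L'.map fun p => p.H.support.card).sum ≤ (L.map fun p => p.H.support.card).sum := by
  induction L with
  | nil => exact ⟨[], by simp, rfl, le_rfl⟩
  | cons p L ih =>
    obtain ⟨L', h1, h2, h3⟩ := ih fun q hq => hL q (List.mem_cons_of_mem _ hq)
    obtain ⟨hp1, hp2⟩ := hL p List.mem_cons_self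
    obtain ⟨M, hM1, hM2, hM3⟩ := gap_split κ c hκ hc n hn p.H hp1 hp2
    refine ⟨(M.map fun G => (⟨p.g, G, (G.support.card - 1) * (G.support.card - 2)⟩ : Pc K N)) ++
      L', ?_, ?_, ?_⟩
    · intro q hq
      rcases List.mem_append.1 hq with hq | hq
      · obtain ⟨G, hG, rfl⟩ := List.mem_map.1 hq
        obtain ⟨e1, e2, e3, e4⟩ := hM2 G hG
        exact ⟨e1, e2, e3, rfl⟩
      · exact h1 q hq
    · rw [List.map_append, List.sum_append, h2, List.map_map, List.map_cons, List.sum_cons]
      congr 1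
      have h4 := low_img_sum α β p.g M p.D
        (fun G => (G.support.card - 1) * (G.support.card - 2))
      rw [hM1] at h4
      exact h4
    · rw [List.map_append, List.sum_append, List.map_map, List.map_cons, List.sum_cons]
      refine Nat.add_le_add ?_ h3
      exact low_card_sum M p.H.support (fun G hG => (hM2 G hG).2.2.2) hM3

/-! ### One step -/

theorem low_collect (α β : ZMod N) (κ c : K) (hκ : κ ≠ 0) (s : ℕ) (l : List (Rg K N))
    (hl : ∀ P ∈ l, LowGood α β κ c P ∧ nterms P ≤ s) (t : List (ZMod N × K × Rg K N))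
    (ht : ∀ x ∈ t, x.2.2 ∈ l) :
    ∃ L : List (Pc K N), (∀ p ∈ L, ev κ c p.H = 0 ∧ InTri p.D p.H.support) ∧
      (L.map Pc.D).sum ≤ t.length * ((s - 1) * (s - 2)) ∧
      (L.map (img α β)).sum =
        (t.map fun x => AddMonoidAlgebra.single x.1 x.2.1 * x.2.2).sum := by
  induction t with
  | nil => exact ⟨[], by simp, by simp, rfl⟩
  | cons x t ih =>
    obtain ⟨L, h1, h2, h3⟩ := ih fun y hy => ht y (List.mem_cons_of_mem _ hy)
    obtain ⟨⟨M, hM1, hM2, hM3⟩, hMs⟩ := hl x.2.2 (ht x List.mem_cons_self)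
    have hsz := low_size κ c hκ M hM1 s (hM3.trans hMs)
    refine ⟨(M.map fun p => (⟨x.1 + p.g, x.2.1 • p.H, p.D⟩ : Pc K N)) ++ L, ?_, ?_, ?_⟩
    · intro q hq
      rcases List.mem_append.1 hq with hq | hq
      · obtain ⟨p, hp, rfl⟩ := List.mem_map.1 hq
        obtain ⟨e1, e2, e3, e4⟩ := hM1 p hp
        refine ⟨?_, e3.mono le_rfl Finsupp.support_smul⟩
        show ev κ c (x.2.1 • p.H) = 0
        rw [low_ev_smul, e2, mul_zero]
      · exact h1 q hq
    · rw [List.map_append, List.sum_append, List.map_map, List.length_cons, add_mul, one_mul]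
      have e1 : (M.map (Pc.D ∘ fun p => (⟨x.1 + p.g, x.2.1 • p.H, p.D⟩ : Pc K N))) =
          M.map Pc.D := rfl
      rw [e1]
      omega
    · rw [List.map_append, List.sum_append, List.map_map, List.map_cons, List.sum_cons, h3]
      congr 1
      conv_rhs => rw [← hM2]
      rw [← List.sum_map_mul_left]
      congr 1
      refine List.map_congr_left fun p _ => ?_
      exact (low_img_smul α β x.1 x.2.1 p).symm

theorem low_step (α β : ZMod N) (κ c : K) (hκ : κ ≠ 0) (hc : c ≠ 0) (n r s : ℕ)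
    (hn : CharOK K n) (hrel : ¬ Rel N α β n) (hrs : r * ((s - 1) * (s - 2)) ≤ n)
    (l : List (Rg K N)) (hl : ∀ P ∈ l, LowGood α β κ c P ∧ nterms P ≤ s) (Q : Rg K N)
    (hQ : Step r l Q) : LowGood α β κ c Q := by
  obtain ⟨t, ht1, ht2, ht3⟩ := hQ
  obtain ⟨L, h1, h2, h3⟩ := low_collect α β κ c hκ s l hl t ht2
  obtain ⟨L', g1, g2, g3, g4⟩ := merge α β κ c hκ L h1
  have hsum : (L'.map Pc.D).sum ≤ n :=
    g2.trans (h2.trans ((Nat.mul_le_mul_right _ ht1).trans hrs))
  have hD : ∀ p ∈ L', p.D ≤ n := fun p hp =>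
    (List.single_le_sum (fun _ _ => Nat.zero_le _) _ (List.mem_map_of_mem hp)).trans hsum
  have hL' : ∀ p ∈ L', ev κ c p.H = 0 ∧ InTri n p.H.support := fun p hp =>
    ⟨(g1 p hp).1, (g1 p hp).2.mono (hD p hp) subset_rfl⟩
  obtain ⟨L'', k1, k2, k3⟩ := low_split α β κ c hκ hc n hn L' hL'
  refine ⟨L'', k1, ?_, ?_⟩
  · rw [k2, g3, h3, ht3]
  · refine k3.trans ?_
    have h5 := low_sum_card hrel L' (fun p hp => ⟨hD p hp, (g1 p hp).2⟩) g4
    rw [g3, h3, ← ht3] at h5
    exact h5

/-! ### The trinomial itself -/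

theorem low_tri {α β : ZMod N} {c₁ c₂ c₃ : K} (h1 : c₁ ≠ 0) (h2 : c₂ ≠ 0) (h3 : c₃ ≠ 0) {n : ℕ}
    (hn : 1 ≤ n) (hrel : ¬ Rel N α β n) :
    LowGood α β (-(c₂ / c₁)) (c₃ / c₂) (tri N α β c₁ c₂ c₃) := by
  classical
  set H : ℤ × ℤ →₀ K := Finsupp.single (1, 0) c₁ + Finsupp.single (0, 1) c₂ +
    Finsupp.single (0, 0) c₃ with hH
  have hsup : H.support = {(1, 0), (0, 1), (0, 0)} := by
    rw [hH, Finsupp.support_add_eq, Finsupp.support_add_eq, Finsupp.support_single _ h1,
      Finsupp.support_single _ h2, Finsupp.support_single _ h3]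
    · rfl
    · rw [Finsupp.support_single _ h1, Finsupp.support_single _ h2]
      simp
    · rw [Finsupp.support_add_eq, Finsupp.support_single _ h1,
        Finsupp.support_single _ h2, Finsupp.support_single _ h3]
      · simp
      · rw [Finsupp.support_single _ h1, Finsupp.support_single _ h2]
        simp
  have hcard : H.support.card = 3 := by
    rw [hsup]
    rfl
  have htri : InTri 1 H.support := by
    refine ⟨0, 0, fun z hz => ?_⟩
    rw [hsup] at hz
    simp only [Finset.mem_insert, Finset.mem_singleton] at hz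
    rcases hz with rfl | rfl | rfl <;> simp
  have himg : img α β ⟨0, H, 2⟩ = tri N α β c₁ c₂ c₃ := by
    unfold img tri
    show H.sum (fun z h => AddMonoidAlgebra.single ((0 : ZMod N) + pr α β z) h) = _
    rw [hH, Finsupp.sum_add_index', Finsupp.sum_add_index', Finsupp.sum_single_index,
      Finsupp.sum_single_index, Finsupp.sum_single_index]
    · simp [pr]
    all_goals first
      | exact AddMonoidAlgebra.single_zero _
      | exact fun _ => AddMonoidAlgebra.single_zero _
      | exact fun _ _ _ => AddMonoidAlgebra.single_add _ _ _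
  have hev : ev (-(c₂ / c₁)) (c₃ / c₂) H = 0 := by
    unfold ev
    rw [hH, Finsupp.sum_add_index', Finsupp.sum_add_index', Finsupp.sum_single_index,
      Finsupp.sum_single_index, Finsupp.sum_single_index]
    · simp only [zpow_one, zpow_zero, mul_one]
      have e1 : RatFunc.C c₁ * (RatFunc.C (-(c₂ / c₁)) * (RatFunc.X + RatFunc.C (c₃ / c₂))) =
          RatFunc.C (c₁ * (-(c₂ / c₁))) * RatFunc.X +
            RatFunc.C (c₁ * (-(c₂ / c₁)) * (c₃ / c₂)) := by
        rw [map_mul, map_mul RatFunc.C (c₁ * -(c₂ / c₁)), map_mul]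
        ring
      have e2 : c₁ * (-(c₂ / c₁)) = -c₂ := by field_simp
      have e3 : c₁ * (-(c₂ / c₁)) * (c₃ / c₂) = -c₃ := by field_simp
      rw [e1, e3, e2, map_neg, map_neg]
      ring
    all_goals first
      | (rw [map_zero, zero_mul, zero_mul])
      | (intro z; rw [map_zero, zero_mul, zero_mul])
      | (intro z a b; rw [map_add, add_mul, add_mul])
  refine ⟨[⟨0, H, 2⟩], ?_, ?_, ?_⟩
  · intro p hp
    rw [List.mem_singleton] at hp
    subst hp
    refine ⟨?_, hev, htri.mono (by norm_num) subset_rfl, ?_⟩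
    · show H ≠ 0
      intro h0
      rw [h0, Finsupp.support_zero, Finset.card_empty] at hcard
      omega
    · show 2 = (H.support.card - 1) * (H.support.card - 2)
      rw [hcard]
  · rw [List.map_singleton, List.sum_singleton, himg]
  · rw [List.map_singleton, List.sum_singleton, ← himg]
    have h5 := low_img_card hrel (⟨0, H, 1⟩ : Pc K N) hn htri
    exact h5

/-! ### The lower bound -/

/-- If `r (s - 1) (s - 2) ≤ n` and there is no relation of size `≤ n`, then every nonzero line of a
derivation from the trinomial has at least three terms. -/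
theorem lower {α β : ZMod N} {c₁ c₂ c₃ : K} (h1 : c₁ ≠ 0) (h2 : c₂ ≠ 0) (h3 : c₃ ≠ 0)
    {n r s : ℕ} (hn1 : 1 ≤ n) (hn : CharOK K n) (hrel : ¬ Rel N α β n)
    (hrs : r * ((s - 1) * (s - 2)) ≤ n) {l : List (Rg K N)}
    (hl : IsProof r s (tri N α β c₁ c₂ c₃) l) : ∀ P ∈ l, P ≠ 0 → 3 ≤ nterms P := by
  have hκ : -(c₂ / c₁) ≠ 0 := neg_ne_zero.2 (div_ne_zero h2 h1)
  have hc : c₃ / c₂ ≠ 0 := div_ne_zero h3 h2
  have key : ∀ P ∈ l, LowGood α β (-(c₂ / c₁)) (c₃ / c₂) P ∧ nterms P ≤ s := by
    induction hl with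
    | nil => intro P hP; simp at hP
    | line g1 g2 g3 ih =>
      intro P hP
      rcases List.mem_cons.1 hP with rfl | hP
      · refine ⟨?_, g3⟩
        rcases g2 with rfl | g2
        · exact low_tri h1 h2 h3 hn1 hrel
        · exact low_step α β _ _ hκ hc n r s hn hrel hrs _ ih _ g2
      · exact ih P hP
  intro P hP hP0
  obtain ⟨⟨L, g1, g2, g3⟩, -⟩ := key P hP
  rcases L with _ | ⟨p, L⟩
  · exact absurd g2.symm hP0
  · obtain ⟨e1, e2, e3, e4⟩ := g1 p List.mem_cons_self
    have e5 := low_three _ _ hκ p.H e1 e2 (e4 ▸ e3)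
    rw [List.map_cons, List.sum_cons] at g3
    omega

end STri
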